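import Mathlib
import Pool.Agent.N753.DR.Stm2
import Pool.Agent.N262.DR.Box

/-!
# CV/ZEROC: few points of a hypersurface
-/

set_option autoImplicit false

namespace Pool.Agent.N752.CV

open NumberField Module Finset
open scoped LinearAlgebra.Projectivization
open Pool.Agent.N753.DR

lemma eval_smul {K : Type} [Field K] {m d : ℕ} {Q : MvPolynomial (Fin m) K}
    (hd : Q.IsHomogeneous d) (x : Fin m → K) (l : K) :
    MvPolynomial.eval (l • x) Q = l ^ d * MvPolynomial.eval x Q := by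
  rw [MvPolynomial.eval_eq', MvPolynomial.eval_eq', Finset.mul_sum]
  refine Finset.sum_congr rfl fun s hs => ?_
  have h1 : ∑ i, s i = d := by
    have h2 := hd (MvPolynomial.mem_support_iff.1 hs)
    rw [Finsupp.weight_apply, Finsupp.sum_fintype _ _ (by simp)] at h2
    simpa using h2
  have h3 : ∏ i, (l • x) i ^ s i = l ^ d * ∏ i, x i ^ s i := by
    simp_rw [Pi.smul_apply, smul_eq_mul, mul_pow]
    rw [Finset.prod_mul_distrib, Finset.prod_pow_eq_pow_sum, h1]
  rw [h3]
  ring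

/-- the zeros in a box -/
lemma zeros_card {K : Type} [Field K] [NumberField K] {m : ℕ} (hm : 1 ≤ m)
    (Q : MvPolynomial (Fin m) K) (hQ : Q ≠ 0) (B : ℕ) :
    {c : Fin m → 𝓞 K | c ∈ Bx K m B ∧ MvPolynomial.eval (fun i => (c i : K)) Q = 0}.ncard ≤
      Q.totalDegree * (2 * B + 1) ^ (finrank ℚ K * (m - 1)) := by
  classical
  have hfin1 := Pool.Agent.N262.DR.Bx_finite (K := K) 1 B
  let S : Finset K := hfin1.toFinset.image fun c => (c 0 : K)
  have hS : S.card ≤ (2 * B + 1) ^ finrank ℚ K := by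
    refine Finset.card_image_le.trans ?_
    rw [← Set.ncard_eq_toFinset_card _ hfin1]
    have := Pool.Agent.N262.DR.Bx_card (K := K) 1 B
    rwa [mul_one] at this
  have hSmem : ∀ z : 𝓞 K, sz z ≤ B → (z : K) ∈ S := by
    intro z hz
    refine Finset.mem_image.2 ⟨fun _ => z, ?_, rfl⟩
    rw [Set.Finite.mem_toFinset]
    intro _
    exact hz
  have hS0 : 0 < S.card := Finset.card_pos.2 ⟨((0 : 𝓞 K) : K), hSmem 0 (by
    unfold sz
    simp)⟩
  have h1 := MvPolynomial.schwartz_zippel_totalDegree hQ S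
  have hS0' : (0 : ℚ≥0) < S.card := by exact_mod_cast hS0
  rw [div_le_div_iff₀ (by positivity) hS0'] at h1
  have h2 : (#{f ∈ Fintype.piFinset fun _ : Fin m ↦ S | MvPolynomial.eval f Q = 0}) * S.card ≤
      Q.totalDegree * S.card ^ m := by exact_mod_cast h1
  have h3 : (#{f ∈ Fintype.piFinset fun _ : Fin m ↦ S | MvPolynomial.eval f Q = 0}) ≤
      Q.totalDegree * S.card ^ (m - 1) := by
    have e1 : S.card ^ m = S.card ^ (m - 1) * S.card := by
      rw [← pow_succ]
      congr 1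
      omega
    rw [e1, ← mul_assoc] at h2
    exact Nat.le_of_mul_le_mul_right h2 hS0
  have h4 : {c : Fin m → 𝓞 K | c ∈ Bx K m B ∧
      MvPolynomial.eval (fun i => (c i : K)) Q = 0}.ncard ≤
      (#{f ∈ Fintype.piFinset fun _ : Fin m ↦ S | MvPolynomial.eval f Q = 0}) := by
    rw [← Set.ncard_coe_finset]
    refine Set.ncard_le_ncard_of_injOn (fun c i => (c i : K)) ?_ ?_ (Finset.finite_toSet _)
    · rintro c ⟨hc, hc'⟩
      rw [Finset.mem_coe, Finset.mem_filter, Fintype.mem_piFinset]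
      exact ⟨fun i => hSmem _ (hc i), hc'⟩
    · intro c _ c' _ h
      funext i
      exact RingOfIntegers.coe_injective (congrFun h i)
  refine h4.trans (h3.trans (Nat.mul_le_mul_left _ ?_))
  rw [pow_mul]
  exact Nat.pow_le_pow_left hS _

theorem t2 (h : StmRedC) : StmZeroC := by
  intro K _ _ m Q d hQ hd
  classical
  obtain ⟨Bad, C, hC, hred⟩ := h K m
  have hn : (0 : ℝ) < finrank ℚ K := by exact_mod_cast Module.finrank_pos
  set n := finrank ℚ K with hn'
  -- the coordinates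
  have hex : ∀ P : ℙ K (Fin m → K), ∃ c : Fin m → 𝓞 K, ∃ l : K, l ≠ 0 ∧
      (∀ i, (c i : K) = l * P.rep i) ∧
      ∀ i, (sz (c i) : ℝ) ≤ C * Real.exp (Height.logHeight P.rep / n) := by
    intro P
    obtain ⟨c, l, h1, h2, -, h3⟩ := hred P.rep P.rep_nonzero
    exact ⟨c, l, h1, h2, h3⟩
  choose c l hl hc hsz using hex
  have hinj : Function.Injective c := by
    intro P P' hPP
    have h1 : l P • P.rep = l P' • P'.rep := by
      funext i
      rw [Pi.smul_apply, Pi.smul_apply, smul_eq_mul, smul_eq_mul, ← hc, ← hc, hPP]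
    rw [← P.mk_rep, ← P'.mk_rep, Projectivization.mk_eq_mk_iff']
    refine ⟨(l P)⁻¹ * l P', ?_⟩
    rw [mul_smul, ← h1, inv_smul_smul₀ (hl P)]
  have hbox : ∀ (U : ℝ) (P : ℙ K (Fin m → K)), Height.logHeight P.rep ≤ U →
      c P ∈ Bx K m ⌊C * Real.exp (U / n)⌋₊ := by
    intro U P hP i
    refine Nat.le_floor ((hsz P i).trans ?_)
    refine mul_le_mul_of_nonneg_left (Real.exp_le_exp.2 ?_) hC.le
    exact div_le_div_of_nonneg_right hP hn.le
  have hfin : ∀ U : ℝ, {P : ℙ K (Fin m → K) | Height.logHeight P.rep ≤ U}.Finite := by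
    intro U
    exact Set.Finite.of_injOn (fun P hP => hbox U P hP) hinj.injOn
      (Pool.Agent.N262.DR.Bx_finite (K := K) m _)
  refine ⟨1, Q.totalDegree * (2 * C + 1) ^ (n * (m - 1)), one_pos, fun U hU => ⟨hfin U, ?_⟩⟩
  rcases Nat.eq_zero_or_pos m with hm | hm
  · subst hm
    have : {P : ℙ K (Fin 0 → K) | MvPolynomial.eval P.rep Q = 0 ∧
        Height.logHeight P.rep ≤ U} = ∅ := by
      ext P
      simp only [Set.mem_empty_iff_false, iff_false]
      exact fun _ => P.rep_nonzero (Subsingleton.elim _ _)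
    rw [this, Set.ncard_empty, Nat.cast_zero]
    positivity
  set B := ⌊C * Real.exp (U / n)⌋₊ with hB
  have h1 : {P : ℙ K (Fin m → K) | MvPolynomial.eval P.rep Q = 0 ∧
      Height.logHeight P.rep ≤ U}.ncard ≤
      {c : Fin m → 𝓞 K | c ∈ Bx K m B ∧ MvPolynomial.eval (fun i => (c i : K)) Q = 0}.ncard := by
    refine Set.ncard_le_ncard_of_injOn c ?_ hinj.injOn
      ((Pool.Agent.N262.DR.Bx_finite (K := K) m B).subset fun c hc => hc.1)
    rintro P ⟨hP, hP'⟩
    refine ⟨hbox U P hP', ?_⟩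
    have e1 : (fun i => (c P i : K)) = l P • P.rep := by
      funext i
      rw [hc, Pi.smul_apply, smul_eq_mul]
    rw [e1, eval_smul hd, hP, mul_zero]
  have h2 : (({P : ℙ K (Fin m → K) | MvPolynomial.eval P.rep Q = 0 ∧
      Height.logHeight P.rep ≤ U}.ncard : ℕ) : ℝ) ≤
      Q.totalDegree * (2 * (B : ℝ) + 1) ^ (n * (m - 1)) := by
    exact_mod_cast h1.trans (zeros_card hm Q hQ B)
  refine h2.trans ?_
  rw [mul_assoc]
  refine mul_le_mul_of_nonneg_left ?_ (Nat.cast_nonneg _)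
  have h3 : 2 * (B : ℝ) + 1 ≤ (2 * C + 1) * Real.exp (U / n) := by
    have h4 : (B : ℝ) ≤ C * Real.exp (U / n) := Nat.floor_le (by positivity)
    have h5 : 1 ≤ Real.exp (U / n) := Real.one_le_exp (by positivity)
    linarith
  refine (pow_le_pow_left₀ (by positivity) h3 _).trans (le_of_eq ?_)
  rw [mul_pow]
  congr 1
  rw [← Real.exp_nat_mul]
  congr 1
  have hm' : ((m - 1 : ℕ) : ℝ) = (m : ℝ) - 1 := by
    rw [Nat.cast_sub hm, Nat.cast_one]
  rw [Nat.cast_mul, hm']
  field_simp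

end Pool.Agent.N752.CV
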