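import Mathlib
import Pool.Agent.N753.DR.Stm2

/-!
# CV/UNIC: for most members the zero determines the member
-/

set_option autoImplicit false

namespace Pool.Agent.N752.CV

open Module Polynomial
open Pool.Agent.N753.DR

/-! ### homogeneity of determinants -/

/-- all coefficients are homogeneous of degree `d` -/
def Hom {K σ : Type} [Field K] (p : (MvPolynomial σ K)[X]) (d : ℕ) : Prop :=
  ∀ t, (p.coeff t).IsHomogeneous d

lemma Hom.add {K σ : Type} [Field K] {p q : (MvPolynomial σ K)[X]} {d : ℕ} (hp : Hom p d)
    (hq : Hom q d) : Hom (p + q) d := fun t => by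
  rw [coeff_add]
  exact (hp t).add (hq t)

lemma Hom.zero {K σ : Type} [Field K] (d : ℕ) : Hom (0 : (MvPolynomial σ K)[X]) d := fun t => by
  rw [coeff_zero]
  exact MvPolynomial.isHomogeneous_zero _ _ _

lemma Hom.sum {K σ ι : Type} [Field K] (s : Finset ι) (p : ι → (MvPolynomial σ K)[X]) {d : ℕ}
    (hp : ∀ i ∈ s, Hom (p i) d) : Hom (∑ i ∈ s, p i) d := fun t => by
  rw [finsetSum_coeff]
  exact MvPolynomial.IsHomogeneous.sum _ _ _ fun i hi => hp i hi t

lemma Hom.mul {K σ : Type} [Field K] {p q : (MvPolynomial σ K)[X]} {d e : ℕ} (hp : Hom p d)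
    (hq : Hom q e) : Hom (p * q) (d + e) := fun t => by
  rw [coeff_mul]
  exact MvPolynomial.IsHomogeneous.sum _ _ _ fun i _ => (hp i.1).mul (hq i.2)

lemma Hom.one {K σ : Type} [Field K] : Hom (1 : (MvPolynomial σ K)[X]) 0 := fun t => by
  rw [coeff_one]
  split_ifs
  · exact MvPolynomial.isHomogeneous_one _ _
  · exact MvPolynomial.isHomogeneous_zero _ _ _

lemma Hom.prod {K σ ι : Type} [Field K] (s : Finset ι) (p : ι → (MvPolynomial σ K)[X])
    (hp : ∀ i ∈ s, Hom (p i) 1) : Hom (∏ i ∈ s, p i) s.card := by
  classical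
  induction s using Finset.induction_on with
  | empty => simpa using Hom.one
  | insert i s hi ih =>
    rw [Finset.prod_insert hi, Finset.card_insert_of_notMem hi, add_comm]
    exact (hp i (Finset.mem_insert_self i s)).mul
      (ih fun j hj => hp j (Finset.mem_insert_of_mem hj))

lemma Hom.zsmul {K σ : Type} [Field K] {p : (MvPolynomial σ K)[X]} {d : ℕ} (hp : Hom p d)
    (u : ℤˣ) : Hom (u • p) d := fun t => by
  rcases Int.units_eq_one_or u with h | h
  · rw [h, one_smul]
    exact hp t
  · rw [h, Units.neg_smul, one_smul, coeff_neg]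
    exact (hp t).neg

lemma Hom.det {K σ : Type} [Field K] {N : ℕ} (M : Matrix (Fin N) (Fin N) (MvPolynomial σ K)[X])
    (hM : ∀ i j, Hom (M i j) 1) : Hom M.det N := by
  rw [Matrix.det_apply]
  refine Hom.sum _ _ fun s _ => ?_
  have h := Hom.prod Finset.univ (fun i => M (s i) i) fun i _ => hM _ _
  rw [Finset.card_univ, Fintype.card_fin] at h
  exact h.zsmul _

/-! ### the algebraic closedness of `K` in `A` -/

lemma mem_of_integral {K A : Type} [Field K] [CommRing A] [IsDomain A] [Algebra K A]
    (hdom : IsDomain (TensorProduct K (AlgebraicClosure K) A)) (u : A) (hu : IsIntegral K u) :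
    ∃ l : K, algebraMap K A l = u := by
  classical
  by_contra hne
  push Not at hne
  set Kb := AlgebraicClosure K
  let T := TensorProduct K Kb A
  -- a functional
  have h1 : u ∉ Submodule.span K {(1 : A)} := by
    intro h
    obtain ⟨l, hl⟩ := Submodule.mem_span_singleton.1 h
    exact hne l (by rw [Algebra.algebraMap_eq_smul_one, hl])
  obtain ⟨ψ, hψu, hψ⟩ := Submodule.exists_le_ker_of_notMem h1
  have hψ1 : ψ 1 = 0 := hψ (Submodule.mem_span_singleton_self 1)
  obtain ⟨p, hp, hpu⟩ := hu
  rw [← aeval_def] at hpu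
  -- the image of `u`
  let ι : A →ₐ[K] T := Algebra.TensorProduct.includeRight
  have h2 : aeval (ι u) p = 0 := by
    rw [aeval_algHom_apply, hpu, map_zero]
  have hs : (p.map (algebraMap K Kb)).Splits := IsAlgClosed.splits _
  have h3 : aeval (ι u) (p.map (algebraMap K Kb)) = 0 := by
    rw [aeval_map_algebraMap]
    exact h2
  have hpm : (p.map (algebraMap K Kb)).Monic := hp.map _
  rw [hs.eq_prod_roots_of_monic hpm, map_multiset_prod] at h3
  have h4 := Multiset.prod_eq_zero_iff.1 h3
  rw [Multiset.map_map, Multiset.mem_map] at h4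
  obtain ⟨z, -, hz⟩ := h4
  rw [Function.comp_apply, map_sub, aeval_X, aeval_C, sub_eq_zero] at hz
  have h5 : (ι u : T) = (1 : Kb) ⊗ₜ[K] u := rfl
  have h6 : algebraMap Kb T z = z ⊗ₜ[K] (1 : A) := rfl
  rw [h5, h6] at hz
  have h7 := congrArg (fun x => TensorProduct.rid K Kb (LinearMap.lTensor Kb ψ x)) hz
  simp only [LinearMap.lTensor_tmul, TensorProduct.rid_tmul, hψ1, zero_smul] at h7
  rw [Algebra.smul_def, mul_one] at h7
  exact hψu ((algebraMap K Kb).injective (by rw [h7, map_zero]))

/-! ### the characteristic polynomial -/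

lemma charpoly_const {K : Type} [Field K] [Infinite K] (χ : K[X][X])
    (h : ∀ l : K, (χ.eval (C l)).natDegree = 0) : ∃ p : K[X], χ = p.map C := by
  have h1 : ∀ t : ℕ, t ≠ 0 → ∀ j, (χ.coeff j).coeff t = 0 := by
    intro t ht
    let q : K[X] := ∑ j ∈ Finset.range (χ.natDegree + 1), monomial j ((χ.coeff j).coeff t)
    have hq : q = 0 := by
      refine Polynomial.funext fun l => ?_
      have e1 : q.eval l = (χ.eval (C l)).coeff t := by
        rw [eval_eq_sum_range (p := χ), finsetSum_coeff, eval_finsetSum]
        refine Finset.sum_congr rfl fun j _ => ?_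
        rw [eval_monomial, ← C_pow, mul_comm (χ.coeff j), coeff_C_mul, mul_comm]
      rw [e1, eval_zero]
      exact coeff_eq_zero_of_natDegree_lt (by rw [h l]; omega)
    intro j
    have h2 := congrArg (fun q => q.coeff j) hq
    simp only [q, finsetSum_coeff, coeff_monomial, coeff_zero] at h2
    rw [Finset.sum_ite_eq'] at h2
    by_cases hj : j ∈ Finset.range (χ.natDegree + 1)
    · rwa [if_pos hj] at h2
    · rw [Finset.mem_range] at hj
      rw [coeff_eq_zero_of_natDegree_lt (p := χ) (by omega), coeff_zero]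
  refine ⟨∑ j ∈ Finset.range (χ.natDegree + 1), monomial j ((χ.coeff j).coeff 0), ?_⟩
  ext j t
  rw [coeff_map, finsetSum_coeff]
  simp only [coeff_monomial]
  rw [Finset.sum_ite_eq']
  by_cases hj : j ∈ Finset.range (χ.natDegree + 1)
  · rw [if_pos hj, coeff_C]
    split_ifs with ht
    · rw [ht]
    · exact h1 t ht j
  · rw [if_neg hj]
    rw [Finset.mem_range] at hj
    rw [coeff_eq_zero_of_natDegree_lt (p := χ) (by omega), C_0]

/-! ### the theorem -/

theorem t : StmUniC := by
  intro K A _ _ _ _ _ _ _ _ _ hdom m hm f hf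
  classical
  have hinf : Infinite K := inferInstance
  have htf : Module.IsTorsionFree K[X] A := by
    infer_instance
  have hfree : Module.Free K[X] A := inferInstance
  set N := finrank K[X] A with hN
  let b : Basis (Fin N) K[X] A := Module.finBasis K[X] A
  let M : Fin m → Matrix (Fin N) (Fin N) K[X] := fun i => Algebra.leftMulMatrix b (f i)
  let MM : Matrix (Fin N) (Fin N) (MvPolynomial (Fin m) K)[X] := fun j k =>
    ∑ i, C (MvPolynomial.X i) * (M i j k).map MvPolynomial.C
  have hMM : ∀ j k, Hom (MM j k) 1 := by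
    intro j k
    refine Hom.sum _ _ fun i _ t => ?_
    rw [coeff_C_mul, coeff_map]
    exact (MvPolynomial.isHomogeneous_X K i).mul (MvPolynomial.isHomogeneous_C _ _)
  have hdet : Hom MM.det N := Hom.det MM hMM
  -- evaluation
  have hev : ∀ c : Fin m → K, MM.det.map (MvPolynomial.eval c) = Algebra.norm K[X] (mem f c) := by
    intro c
    rw [Algebra.norm_eq_matrix_det b]
    have e1 : MM.det.map (MvPolynomial.eval c) =
        (mapRingHom (MvPolynomial.eval c)) MM.det := rfl
    rw [e1, RingHom.map_det]
    congr 1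
    have e2 : mem f c = ∑ i, (C (c i) : K[X]) • f i := by
      unfold mem
      refine Finset.sum_congr rfl fun i _ => ?_
      rw [← algebraMap_eq, IsScalarTower.algebraMap_smul]
    rw [e2, map_sum]
    ext1 j k
    rw [Matrix.sum_apply]
    change (mapRingHom (MvPolynomial.eval c)) (∑ i, C (MvPolynomial.X i) *
      (Algebra.leftMulMatrix b (f i) j k).map MvPolynomial.C) = _
    rw [map_sum]
    refine Finset.sum_congr rfl fun i _ => ?_
    rw [map_smul, Matrix.smul_apply, smul_eq_mul, map_mul, coe_mapRingHom, map_C,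
      MvPolynomial.eval_X, map_map]
    congr 1
    have e3 : (MvPolynomial.eval c).comp (MvPolynomial.C : K →+* MvPolynomial (Fin m) K) =
        RingHom.id K := by
      ext x
      simp
    rw [e3, map_id]
  set D := MM.det.natDegree with hD
  have hdeg : ∀ c : Fin m → K, (Algebra.norm K[X] (mem f c)).natDegree ≤ D := by
    intro c
    rw [← hev c]
    exact natDegree_map_le
  have hcoeff : ∀ c : Fin m → K, (Algebra.norm K[X] (mem f c)).coeff D =
      MvPolynomial.eval c (MM.det.coeff D) := by
    intro c
    rw [← hev c, coeff_map]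
  have hmem0 : ∀ c : Fin m → K, mem f c = 0 → c = 0 := by
    intro c hc
    funext i
    exact Fintype.linearIndependent_iff.1 hf c hc i
  have hdet0 : MM.det ≠ 0 := by
    intro h0
    have h1 := hev (Pi.single ⟨0, hm⟩ 1)
    rw [h0, Polynomial.map_zero] at h1
    have h2 := (Algebra.norm_eq_zero_iff (R := K[X])).1 h1.symm
    have h3 := congrFun (hmem0 _ h2) ⟨0, hm⟩
    rw [Pi.single_eq_same] at h3
    exact one_ne_zero h3
  -- members outside of the hypersurface
  have hgood : ∀ c : Fin m → K, MvPolynomial.eval c (MM.det.coeff D) ≠ 0 →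
      (Algebra.norm K[X] (mem f c)).natDegree = D ∧ Algebra.norm K[X] (mem f c) ≠ 0 ∧
        mem f c ≠ 0 := by
    intro c hc
    rw [← hcoeff c] at hc
    have h1 : Algebra.norm K[X] (mem f c) ≠ 0 := by
      intro h0
      rw [h0, coeff_zero] at hc
      exact hc rfl
    refine ⟨le_antisymm (hdeg c) (le_natDegree_of_ne_zero hc), h1, fun h0 => h1 ?_⟩
    rw [h0]
    exact Algebra.norm_zero
  refine ⟨MM.det.coeff D, N, D, ?_, hdet D, ?_, ?_⟩
  · rw [hD]
    exact leadingCoeff_ne_zero.2 hdet0
  · intro c c' hc hsp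
    obtain ⟨h1, h2, h3⟩ := hgood c hc
    obtain ⟨u, hu⟩ := Ideal.span_singleton_eq_span_singleton.1 hsp
    -- the norms of `u + l`
    have h4 : ∀ l : K, (Algebra.norm K[X] ((u : A) + algebraMap K A l)).natDegree = 0 := by
      intro l
      have e1 : mem f (c' + l • c) = mem f c * ((u : A) + algebraMap K A l) := by
        have e2 : mem f (c' + l • c) = mem f c' + l • mem f c := by
          unfold mem
          rw [Finset.smul_sum, ← Finset.sum_add_distrib]
          refine Finset.sum_congr rfl fun i _ => ?_
          rw [Pi.add_apply, Pi.smul_apply, add_smul, smul_eq_mul, mul_smul]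
        rw [e2, ← hu, mul_add, Algebra.smul_def, mul_comm (algebraMap K A l)]
      have e3 := hdeg (c' + l • c)
      rw [e1, map_mul] at e3
      by_cases h0 : Algebra.norm K[X] ((u : A) + algebraMap K A l) = 0
      · rw [h0, natDegree_zero]
      · rw [natDegree_mul h2 h0, h1] at e3
        omega
    set χ := (Algebra.leftMulMatrix b (u : A)).charpoly with hχ
    have h5 : ∀ l : K, (χ.eval (C l)).natDegree = 0 := by
      intro l
      have e1 : χ.eval (C l) = (-1) ^ N * Algebra.norm K[X] ((u : A) + algebraMap K A (-l)) := by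
        rw [hχ, Matrix.eval_charpoly, Algebra.norm_eq_matrix_det b]
        have e2 : Algebra.leftMulMatrix b ((u : A) + algebraMap K A (-l)) =
            -(Matrix.scalar (Fin N) (C l) - Algebra.leftMulMatrix b (u : A)) := by
          have e3 : algebraMap K A (-l) = algebraMap K[X] A (C (-l)) := by
            rw [IsScalarTower.algebraMap_apply K K[X] A, algebraMap_eq]
          rw [map_add, e3, AlgHom.commutes]
          rw [neg_sub, sub_eq_add_neg, C_neg, map_neg]
          rfl
        rw [e2, Matrix.det_neg, Fintype.card_fin, ← mul_assoc, ← mul_pow]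
        simp
      rw [e1]
      have e4 := h4 (-l)
      rw [natDegree_eq_zero] at e4
      obtain ⟨x, hx⟩ := e4
      rw [← hx]
      have e5 : ((-1 : K[X]) ^ N * C x) = C ((-1) ^ N * x) := by
        rw [C_mul, C_pow, C_neg, C_1]
      rw [e5, natDegree_C]
    obtain ⟨p, hp⟩ := charpoly_const χ h5
    have h6 : IsIntegral K (u : A) := by
      refine ⟨p, ?_, ?_⟩
      · have e1 : χ.Monic := Matrix.charpoly_monic _
        rw [hp] at e1
        exact monic_of_injective C_injective e1
      · have e1 : aeval (u : A) χ = 0 := by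
          have e2 := Matrix.aeval_self_charpoly (Algebra.leftMulMatrix b (u : A))
          rw [← hχ, aeval_algHom_apply] at e2
          exact Algebra.leftMulMatrix_injective b (by rw [e2, map_zero])
        rw [hp, aeval_def, eval₂_map] at e1
        rw [← e1]
        congr 1
        ext x
        rw [RingHom.comp_apply, ← algebraMap_eq, ← IsScalarTower.algebraMap_apply]
    obtain ⟨l, hl⟩ := mem_of_integral hdom (u : A) h6
    refine ⟨l, ?_, ?_⟩
    · intro h0
      rw [h0, map_zero] at hl
      exact u.ne_zero hl.symm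
    · have e1 : mem f (c' - l • c) = 0 := by
        have e2 : mem f (c' - l • c) = mem f c' - l • mem f c := by
          unfold mem
          rw [Finset.smul_sum, ← Finset.sum_sub_distrib]
          refine Finset.sum_congr rfl fun i _ => ?_
          rw [Pi.sub_apply, Pi.smul_apply, sub_smul, smul_eq_mul, mul_smul]
        rw [e2, ← hu, ← hl, Algebra.smul_def, mul_comm, sub_self]
      exact sub_eq_zero.1 (hmem0 _ e1)
  · intro c hc
    obtain ⟨h1, h2, h3⟩ := hgood c hc
    rw [← h1]
    exact finrank_quotient_span_eq_natDegree_norm b h3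

end Pool.Agent.N752.CV
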